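import Pool.Agent.H.MP_11262c.A
import Pool.Agent.H.MP_1b39b5.A
import Pool.Agent.H.MP_6ac155.B

set_option autoImplicit false
open Set Filter Topology

namespace Pool.Agent.H.MP_874bf8

open Pool.Agent.H.MP_e9bccb Pool.Agent.H.MP_11262c

theorem cLs {Γ : Type} {T : Set Γ} (h : T.Countable) : (Ls T).Countable :=
  Cardinal.le_aleph0_iff_set_countable.1 (cL le_rfl (cC le_rfl h))

theorem cat {Γ Z : Type} (D : List Γ → Set Z) (T : Set Γ) (ks : List Z)
    (h : ks ∈ Ls (⋃ l ∈ Ls T, D l)) : ∃ l ∈ Ls T, ks ∈ Ls (⋃ l' ∈ Ls {θ | θ ∈ l}, D l') := by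
  induction ks with
  | nil => exact ⟨[], by simp [Ls], by simp [Ls]⟩
  | cons k ks ih =>
    obtain ⟨l, l1, l2⟩ := ih fun θ hθ => h θ (List.mem_cons_of_mem _ hθ)
    obtain ⟨m, m1, m2⟩ := mem_iUnion₂.1 (h k List.mem_cons_self)
    refine ⟨m ++ l, List.forall_mem_append.2 ⟨m1, l1⟩, List.forall_mem_cons.2
      ⟨mem_biUnion (x := m) (fun θ a => List.mem_append_left _ a) m2, fun θ a =>
        biUnion_subset_biUnion_left (Lm fun θ b => List.mem_append_right _ b) (l2 θ a)⟩⟩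

variable {L K Y : Type} [TopologicalSpace L] [LinearOrder L] [WellFoundedLT L] [TopologicalSpace K]
  [CompactSpace K] {h : K → L → ℝ} [TopologicalSpace Y] [CompactSpace Y] [T2Space Y] {e : L → Y}

theorem st2 (hw : ∀ y : L, Iic y ∈ 𝓝 y) (hc : Continuous h) (hi : IsInducing fun z k => h k z)
    (he : IsEmbedding e) (hg : IsGδ (range e)) : ∃ (F : List L → Set L) (B : ℕ → L → Set L)
      (R : Set L → L → L → Prop), (∀ l, (F l).Countable) ∧
      (∀ m w, IsOpen (B m w) ∧ w ∈ B m w ∧ B m w ⊆ Iic w) ∧ ∀ T, Cl F T → IsClosed T ∧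
        (∀ y, (∀ m, ∃ w ∈ T, y ∈ B m w) → ∃ r, R T y r) ∧
        (∀ y r, R T y r → r ∈ T ∧ ∀ m, ∀ w ∈ T, (y ∈ B m w ↔ r ∈ B m w)) ∧ (∀ y ∈ T, R T y y) ∧
        ∀ x r, R T x r → ∀ U, IsOpen U → r ∈ U → ∀ᶠ y in 𝓝 x, ∀ r', R T y r' → r' ∈ U := by
  classical
  have c : ∀ k, Continuous (h k) := fun k => (continuous_apply k).comp hi.continuous
  have nb : ∀ U, IsOpen U → ∀ x ∈ U, ∃ (s : Finset K) (δ : ℝ), 0 < δ ∧
      ∀ y, (∀ k ∈ s, |h k y - h k x| < δ) → y ∈ U := fun U a x b =>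
    MP_6ac155.nb (fun z k => h k z) (hi.eq_induced ▸ a) b
  have op : ∀ (s : Finset K) (g : K → K) (a : K → ℝ) (δ : ℝ),
      IsOpen {y | ∀ k ∈ s, |h (g k) y - a k| < δ} := fun s g a δ => by
    simp only [ofPred_forall]
    exact isOpen_biInter_finset fun k _ => isOpen_lt (by fun_prop) continuous_const
  obtain ⟨G, G1, G2⟩ := hg.eq_iInter_nat
  have : ∀ m w, ∃ (s : Finset K) (δ : ℝ), 0 < δ ∧ ∃ V, IsClosed V ∧ V ⊆ G m ∧
      ∀ y, (∀ k ∈ s, |h k y - h k w| < δ) → y ≤ w ∧ e y ∈ V := fun m w => by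
    obtain ⟨V, v1, v2, v3⟩ := exists_mem_nhds_isClosed_subset ((G1 m).mem_nhds
      (mem_iInter.1 (G2 ▸ mem_range_self w) m))
    obtain ⟨s, δ, δ0, k⟩ := nb _ isOpen_interior w (mem_interior_iff_mem_nhds.2
      (inter_mem (hw w) (he.continuous.continuousAt v1)))
    exact ⟨s, δ, δ0, V, v2, v3, fun y a => interior_subset (s := Iic w ∩ e ⁻¹' V) (k y a)⟩
  choose s δ δ0 V v1 v2 v3 using this
  obtain ⟨F, F1, F2⟩ := clo hw hc hi
  obtain ⟨D, -, D2, D3⟩ := apx hc univ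
  choose N _ N1 N2 using fun ks => MP_1b39b5.net h ks univ
  let D0 : List L → Set K := fun l => D l ∪ ⋃ w ∈ {w | w ∈ l}, ⋃ m, s m w
  let E : Set L → Set K := fun T => ⋃ l ∈ Ls T, D0 l
  have e1 : ∀ T, ∀ w ∈ T, ∀ m, ∀ k ∈ s m w, k ∈ E T := fun T w a m k b =>
    mem_biUnion (x := [w]) (by simpa [Ls] using a) (Or.inr (by simpa using ⟨m, b⟩))
  refine ⟨fun l => F l ∪ ⋃ ks ∈ Ls (E {θ | θ ∈ l}), N ks, fun m w =>
    {y | ∀ k ∈ s m w, |h k y - h k w| < δ m w}, fun T y r => r ∈ T ∧ ∀ k ∈ E T, h k r = h k y,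
    fun l => (F1 l).union ((cLs ((cLs (List.finite_toSet l).countable).biUnion fun l _ =>
      (D2 l).union ((List.finite_toSet l).countable.biUnion fun w _ => countable_iUnion fun m =>
        (s m w).countable_toSet))).biUnion fun ks _ => N1 ks),
    fun m w => ⟨op _ id _ _, fun k _ => by simpa using δ0 m w, fun y a => (v3 m w y a).1⟩,
    fun T hT => ?_⟩
  have cT := F2 T fun l a => subset_union_left.trans (hT l a)
  refine ⟨cT, fun y hy => ?_, fun y r a => ⟨a.1, fun m w b => forall₂_congr fun k d => by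
    rw [a.2 k (e1 T w b m k d)]⟩, fun y a => ⟨a, fun _ _ => rfl⟩, fun x r a U b d => ?_⟩
  · obtain ⟨U, U1, U2⟩ := fip (ι := E T × ℕ) (N := fun c =>
      {z | |h c.1 z - h c.1 y| < 1 / ((c.2 : ℝ) + 1)}) (z := y) (G := 𝓟 T) fun t _ => by
        obtain ⟨l, l1, l2⟩ := cat D0 T (t.toList.map fun c => c.1.1) fun p hp => by
          obtain ⟨c, -, rfl⟩ := List.mem_map.1 hp
          exact c.1.2
        obtain ⟨d, d1, d2⟩ := N2 (t.toList.map fun c => c.1.1) y trivial _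
          (Nat.one_div_pos_of_nat (n := t.sup Prod.snd))
        rw [inf_principal, principal_neBot_iff]
        exact ⟨d, hT l l1 (Or.inr (mem_biUnion l2 d1)), mem_iInter₂.2 fun c hc =>
          (d2 _ (List.mem_map.2 ⟨c, Finset.mem_toList.2 hc, rfl⟩)).trans_le
            (Nat.one_div_le_one_div (Finset.le_sup (f := Prod.snd) hc))⟩
    have t : ∀ k ∈ E T, Tendsto (h k) U (𝓝 (h k y)) := fun k hk => Metric.tendsto_nhds.2
      fun ε ε0 => by
        obtain ⟨n, hn⟩ := exists_nat_one_div_lt ε0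
        exact mem_of_superset (U2 (⟨k, hk⟩, n) (by simpa using Nat.cast_add_one_pos n))
          fun z a => lt_trans a hn
    obtain ⟨p, -, hp⟩ := isCompact_univ.ultrafilter_le_nhds (U.map e) (by simp)
    obtain ⟨r, rfl⟩ : p ∈ range e := G2 ▸ mem_iInter.2 fun m => by
      obtain ⟨w, w1, w2⟩ := hy m
      refine v2 m w ((v1 m w).mem_of_tendsto (f := e) (b := U) hp (Eventually.mono
        ((eventually_all_finset _).2 fun k hk => ?_) fun z a => (v3 m w z a).2))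
      exact (((t k (e1 T w w1 m k hk)).sub_const _).abs.eventually_lt_const (w2 k hk))
    have u : ↑U ≤ 𝓝 r := he.isInducing.tendsto_nhds_iff (f := id).2 hp
    exact ⟨r, cT.mem_of_tendsto (f := id) u (le_principal_iff.1 U1), fun k hk =>
      tendsto_nhds_unique (((c k).tendsto r).mono_left u) (t k hk)⟩
  · choose q q1 q2 using fun k => D3 T k (subset_closure trivial)
    have p : ∀ y r, r ∈ T ∧ (∀ k ∈ E T, h k r = h k y) → ∀ k, h (q k) y = h k r := fun y r a k =>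
      Eq.trans (closure_minimal (t := {q | h q y = h q r}) (fun q b => (a.2 q (iUnion₂_mono
        (fun _ _ => subset_union_left) b)).symm) (isClosed_eq (by fun_prop) (by fun_prop)) (q1 k))
        (q2 k r a.1)
    obtain ⟨t, η, η0, k⟩ := nb U b r d
    filter_upwards [(op t q (fun k => h k r) η).mem_nhds (x := x) fun k _ => by
      simpa [p x r a k] using η0] with y hy r' a'
    exact k r' fun k b => p y r' a' k ▸ hy k b

theorem main (hw : ∀ y : L, Iic y ∈ 𝓝 y) (hc : Continuous h) (hi : IsInducing fun z k => h k z)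
    (he : IsEmbedding e) (hg : IsGδ (range e)) :
    ∃ c : L → ℕ, ∀ x, ∀ᶠ y in 𝓝 x, c y = c x → y = x := by
  obtain ⟨F, B, R, F1, b, hR⟩ := st2 hw hc hi he hg
  choose r0 r1 r2 r3 r4 using hR
  refine (ind2 F1 (fun T => ∃ c : L → ℕ, ∀ x ∈ T, ∀ᶠ y in 𝓝 x, y ∈ T → c y = c x → y = x)
    (fun T e => (countable_iff_exists_injOn.1 e).imp fun c k x a => .of_forall fun y b => k b a)
    (fun W _ _ _ T t1 t2 P => ?_) univ fun _ _ => subset_univ _).imp fun c k x =>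
      (k x trivial).mono fun y a => a trivial
  choose c hc using P
  have le : ∀ a y r, R (T a) y r → ∀ w ∈ T a, y ∈ B 0 w → r ≤ w := fun a y r k w p q =>
    (b 0 w).2.2 (((r2 _ (t2 a) y r k).2 0 w p).1 q)
  have sf : ∀ T (e : Cl F T) y r, R T y r → ∀ m, y ∈ B m r := fun T e y r k m =>
    ((r2 _ e y r k).2 m r (r2 _ e y r k).1).2 (b m r).2.1
  have j : ∀ y, {a | ∃ r, R (T a) y r ∧ r ∉ ⋃ b ∈ Iio a, T b}.Finite := fun y => by
    by_contra k
    let f := Set.Infinite.natEmbedding _ k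
    choose r p q using fun n => (f n).2
    obtain ⟨i, j, a, b, c⟩ := wellQuasiOrdered_le fun n => ((f n).1, r n)
    replace b := b.lt_of_ne fun e => a.ne (f.injective (Subtype.ext e))
    have d := (r2 _ (t2 _) y _ (p i)).1
    exact q j (mem_biUnion b (mem_of_eq_of_mem (c.antisymm
      (le _ y _ (p j) _ (t1 b.le d) (sf _ (t2 _) y _ (p i) 0))).symm d))
  choose! σ s1 s2 using fun y (e : y ∈ ⋃ a, T a) => wellFounded_lt.has_min {a | y ∈ T a}
    (mem_iUnion.1 e)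
  have s3 : ∀ y ∈ ⋃ a, T a, IsGreatest {a | ∃ r, R (T a) y r ∧ r ∉ ⋃ b ∈ Iio a, T b} (σ y) :=
    fun y e => ⟨⟨y, r3 _ (t2 _) y (s1 y e), fun k => (mem_iUnion₂.1 k).elim fun b k =>
      k.elim fun b1 b2 => s2 y e b b2 b1⟩, fun a ⟨r, p, q⟩ => not_lt.1 fun l => q (mem_biUnion l
        (mem_of_eq_of_mem ((le a y r p y (t1 l.le (s1 y e)) (b 0 y).2.1).antisymm
          ((b 0 r).2.2 (sf _ (t2 a) y r p 0))) (s1 y e)))⟩
  have : ∀ y ∈ ⋃ a, T a, ∃ n : ℕ, ∀ a, (∀ m ≤ n, ∃ w ∈ T a, y ∈ B m w) →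
      ∀ m, ∃ w ∈ T a, y ∈ B m w := fun y e => by
    by_contra k
    push Not at k
    choose a a1 m a2 using k
    obtain ⟨a0, p, q⟩ := wellFounded_lt.has_min {a | ∀ m, ∃ w ∈ T a, y ∈ B m w}
      ⟨σ y, fun m => ⟨y, s1 y e, (b m y).2.1⟩⟩
    have l : ∀ n, a n < a0 := fun n => not_le.1 fun l =>
      let ⟨w, w1, w2⟩ := p (m n)
      a2 n w (t1 l w1) w2
    have u := ClU t1 t2 (I := Iio a0) ⟨_, l 0⟩
    obtain ⟨r, hr⟩ := r1 _ u y fun m =>
      let ⟨w, w1, w2⟩ := a1 m m le_rfl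
      ⟨w, mem_biUnion (l m) w1, w2⟩
    obtain ⟨d, d1, d2⟩ := mem_iUnion₂.1 (r2 _ u y r hr).1
    exact q d (fun m => ⟨r, d2, sf _ u y r hr m⟩) d1
  choose! n hn using this
  refine ⟨fun y => Nat.pair (n y) (Nat.pair (j y).toFinset.card (c (σ y) y)), fun x e => ?_⟩
  filter_upwards [hc _ x (s1 x e), ((j x).eventually_all (p := fun a y =>
    (∀ m ≤ n x, ∃ w ∈ T a, y ∈ B m w) ∧ ∀ r, R (T a) y r → r ∉ ⋃ b ∈ Iio a, T b)).2
      fun a ⟨r, p, q⟩ => ((((finite_Iic (n x)).eventually_all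
        (p := fun m y => ∃ w ∈ T a, y ∈ B m w)).2 fun m _ => Eventually.mono
        ((b m r).1.mem_nhds (sf _ (t2 a) x r p m)) fun y k => ⟨r, (r2 _ (t2 a) x r p).1, k⟩).and
        (r4 _ (t2 a) x r p _ (IsClosed.isOpen_compl (s := ⋃ b ∈ Iio a, T b)
          (self := (Iio a).eq_empty_or_nonempty.elim (fun e => by simp [e]) fun e =>
            r0 _ (ClU t1 t2 e))) q))] with y y1 y2 y3 y4
  obtain ⟨y4, y5⟩ := Nat.pair_eq_pair.1 y4
  obtain ⟨y5, y6⟩ := Nat.pair_eq_pair.1 y5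
  have sub : {a | ∃ r, R (T a) x r ∧ r ∉ ⋃ b ∈ Iio a, T b} ⊆
      {a | ∃ r, R (T a) y r ∧ r ∉ ⋃ b ∈ Iio a, T b} := fun a k =>
    let ⟨r, p⟩ := r1 _ (t2 a) y (hn y y3 a (y4 ▸ (y2 a k).1))
    ⟨r, p, (y2 a k).2 r p⟩
  have := (s3 y y3).unique ((Finite.toFinset_inj.1 (Finset.eq_of_subset_of_card_le
    (Finite.toFinset_subset_toFinset.2 sub) y5.le)) ▸ s3 x e)
  exact y1 (this ▸ s1 y y3) (this ▸ y6)

end Pool.Agent.H.MP_874bf8
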